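import Pool.Agent.helper90.FN.Spec

set_option autoImplicit false

open scoped BigOperators Topology

namespace Pool.Agent.helper90.FN

open Finset
open Pool.Agent.helper72.UT (IsFor dep pth rt fors rt_mem dep_mem pth_mem rt_not_mem dep_not_mem
  pth_not_mem self_mem_pth)
open Pool.Agent.helper20.HP (ind)

lemma HS_fors {V : Type} [Fintype V] [DecidableEq V] {G : SimpleGraph V} {B : Finset V} {f : V → V} :
    f ∈ fors G B ↔ IsFor G B f := by
  classical
  simp [fors]

lemma HS_ind_nonneg (p : Prop) : 0 ≤ ind p := by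
  unfold ind
  split_ifs <;> norm_num

lemma HS_ind_true {p : Prop} (h : p) : ind p = 1 := by
  unfold ind
  rw [if_pos h]

lemma HS_ind_false {p : Prop} (h : ¬ p) : ind p = 0 := by
  unfold ind
  rw [if_neg h]

lemma HS_top {V : Type} [Fintype V] [DecidableEq V] {G : SimpleGraph V} {C : Finset V} {f : V → V}
    (hf : IsFor G C f) (v : V) :
    ∑ x, ind (x ∉ C ∧ f x ∈ C) * ind (x ∈ pth C f v) = ind (v ∉ C) := by
  refine hf.ind (P := fun v => ∑ x, ind (x ∉ C ∧ f x ∈ C) * ind (x ∈ pth C f v) = ind (v ∉ C)) ?_ ?_ v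
  · intro v hv
    rw [HS_ind_false (fun h : v ∉ C => h hv)]
    refine Finset.sum_eq_zero (fun x _ => ?_)
    rw [pth_mem hv]
    by_cases hx : x = v
    · subst hx
      rw [HS_ind_false (fun h : x ∉ C ∧ f x ∈ C => h.1 hv), zero_mul]
    · rw [HS_ind_false (p := x ∈ [v]) (fun h => hx (List.mem_singleton.1 h)), mul_zero]
  · intro v hv ih
    have hn := hf.not_mem_pth_parent hv
    have h1 : ∀ x, ind (x ∉ C ∧ f x ∈ C) * ind (x ∈ pth C f v)
        = ind (x ∉ C ∧ f x ∈ C) * ind (x = v) + ind (x ∉ C ∧ f x ∈ C) * ind (x ∈ pth C f (f v)) := by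
      intro x
      rw [pth_not_mem hv (hf.hit v), ← mul_add]
      congr 1
      by_cases hx : x = v
      · subst hx
        rw [HS_ind_true (List.mem_cons_self ..), HS_ind_true rfl, HS_ind_false hn]
        ring
      · rw [HS_ind_false hx, zero_add]
        by_cases hx2 : x ∈ pth C f (f v)
        · rw [HS_ind_true hx2, HS_ind_true (List.mem_cons_of_mem _ hx2)]
        · rw [HS_ind_false hx2, HS_ind_false]
          intro h
          rcases List.mem_cons.1 h with h | h
          · exact hx h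
          · exact hx2 h
    rw [Finset.sum_congr rfl (fun x _ => h1 x), Finset.sum_add_distrib, ih,
      Finset.sum_eq_single v]
    · rw [HS_ind_true (p := v = v) rfl, mul_one, HS_ind_true hv]
      by_cases hfv : f v ∈ C
      · rw [HS_ind_true ⟨hv, hfv⟩, HS_ind_false (fun h : f v ∉ C => h hfv)]
        ring
      · rw [HS_ind_false (fun h : v ∉ C ∧ f v ∈ C => hfv h.2), HS_ind_true hfv]
        ring
    · intro x _ hx
      rw [HS_ind_false hx, mul_zero]
    · intro h
      exact absurd (Finset.mem_univ v) h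

lemma HS_ind_and (p q : Prop) : ind (p ∧ q) = ind p * ind q := by
  unfold ind
  by_cases hp : p <;> by_cases hq : q <;> simp [hp, hq]

lemma HS_nb {V : Type} [Fintype V] [DecidableEq V] {G : SimpleGraph V} {C : Finset V} {f : V → V}
    (hf : IsFor G C f) (ℓ : V → ℕ) (r w : ℕ) :
    ∑ x, ind (x ∉ C ∧ f x ∈ C) * hx C ℓ r w f x = nb C C ℓ r w f := by
  unfold hx nb
  have h1 : ∀ x, ind (x ∉ C ∧ f x ∈ C) *
      ∑ v, ind (x ∈ pth C f v ∧ r ≤ lv C ℓ f v ∧ lv C ℓ f v < r + w)
      = ∑ v, (ind (x ∉ C ∧ f x ∈ C) * ind (x ∈ pth C f v)) *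
          ind (r ≤ lv C ℓ f v ∧ lv C ℓ f v < r + w) := by
    intro x
    rw [Finset.mul_sum]
    refine Finset.sum_congr rfl (fun v _ => ?_)
    rw [HS_ind_and (x ∈ pth C f v), ← mul_assoc]
  rw [Finset.sum_congr rfl (fun x _ => h1 x), Finset.sum_comm]
  refine Finset.sum_congr rfl (fun v _ => ?_)
  rw [← Finset.sum_mul, HS_top hf v, HS_ind_and (v ∉ C), HS_ind_and (rt C f v ∈ C),
    HS_ind_true (hf.rt_mem_B v), one_mul]

theorem HS : HS_stmt := by
  intro V _ _ G C f ℓ r w b hb hf
  rw [HS_fors] at hf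
  have hnb := HS_nb hf ℓ r w
  have hh : ∀ x, 0 ≤ hx C ℓ r w f x := fun x => Finset.sum_nonneg (fun v _ => HS_ind_nonneg _)
  have h0 : 0 ≤ HB C C ℓ r w b f :=
    Finset.sum_nonneg (fun x _ => mul_nonneg (HS_ind_nonneg _) (le_min (hh x) hb.le))
  have hexc : ∀ b' : ℝ, 0 ≤ exc C ℓ r w b' f := fun b' =>
    Finset.sum_nonneg (fun x _ => mul_nonneg (HS_ind_nonneg _) (le_max_right _ _))
  have hsum : HB C C ℓ r w b f + exc C ℓ r w b f = nb C C ℓ r w f := by
    rw [← hnb]
    unfold HB exc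
    rw [← Finset.sum_add_distrib]
    refine Finset.sum_congr rfl (fun x _ => ?_)
    rw [← mul_add]
    congr 1
    rcases le_total (hx C ℓ r w f x) b with h | h
    · rw [min_eq_left h, max_eq_right (by linarith), add_zero]
    · rw [min_eq_right h, max_eq_left (by linarith)]
      ring
  refine ⟨hnb, h0, ?_, ?_, hexc b, ?_, ?_⟩
  · have := hexc b
    linarith
  · linarith
  · intro hall
    rw [← hnb]
    unfold HB
    refine Finset.sum_congr rfl (fun x _ => ?_)
    by_cases hx1 : x ∉ C ∧ f x ∈ C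
    · rw [min_eq_left (hall x hx1.1 hx1.2)]
    · rw [HS_ind_false hx1, zero_mul, zero_mul]
  · intro hne
    push Not at hne
    obtain ⟨x, hx1, hx2, hx3⟩ := hne
    have h1 : ind (x ∉ C ∧ f x ∈ C) * max (hx C ℓ r w f x - b / 2) 0 ≤ exc C ℓ r w (b / 2) f := by
      unfold exc
      exact Finset.single_le_sum
        (f := fun x => ind (x ∉ C ∧ f x ∈ C) * max (hx C ℓ r w f x - b / 2) 0)
        (fun y _ => mul_nonneg (HS_ind_nonneg _) (le_max_right _ _)) (Finset.mem_univ x)
    rw [HS_ind_true ⟨hx1, hx2⟩, one_mul, max_eq_left (by linarith)] at h1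
    linarith

end Pool.Agent.helper90.FN
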